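import Mathlib

set_option autoImplicit false
open MeasureTheory ProbabilityTheory

namespace Pool.Agent.H0.Eclt

/-- The law of `S_n = (X_1 + ... + X_n)/√n` for i.i.d. `X_i` with law `μ`. -/
noncomputable def lawS (μ : Measure ℝ) (n : ℕ) : Measure ℝ :=
  (Measure.infinitePi (fun _ : ℕ => μ)).map (fun ω => (∑ i ∈ Finset.range n, ω i) / √n)

/-- The laws considered: absolutely continuous probability measures with mean `0`, variance `1`
and fourth moment at most `M`. -/
structure Adm (M : ℝ) (μ : Measure ℝ) : Prop where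
  prob : IsProbabilityMeasure μ
  ac : μ ≪ volume
  int4 : Integrable (fun x : ℝ => x ^ 4) μ
  mean : ∫ x, x ∂μ = 0
  var : ∫ x, x ^ 2 ∂μ = 1
  m4 : ∫ x, x ^ 4 ∂μ ≤ M

end Pool.Agent.H0.Eclt
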