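import Pool.Agent.H0.Eclt.Sum

set_option autoImplicit false
open MeasureTheory ProbabilityTheory InformationTheory
open scoped NNReal ENNReal

namespace Pool.Agent.H0.Eclt

lemma half (R : ℝ) (w : ℝ≥0) : 1 / 2 ≤ (gaussianReal R w).real (Set.Ici R) := by
  have h1 : (gaussianReal R w).map (fun x => (2 * R) - x) = gaussianReal R w := by
    rw [gaussianReal_map_const_sub]
    congr 1; ring
  have h2 : (gaussianReal R w).real (Set.Ici R) = (gaussianReal R w).real (Set.Iic R) := by
    conv_lhs => rw [← h1]
    rw [map_measureReal_apply (by fun_prop) measurableSet_Ici]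
    congr 1
    ext x; simp; constructor <;> intro h <;> linarith
  have h3 : (gaussianReal R w).real (Set.Ici R ∪ Set.Iic R) ≤
      (gaussianReal R w).real (Set.Ici R) + (gaussianReal R w).real (Set.Iic R) :=
    measureReal_union_le _ _
  have h4 : Set.Ici R ∪ Set.Iic R = Set.univ := by
    ext x; simp
  rw [h4, probReal_univ, ← h2] at h3
  linarith

lemma tail (t : ℝ) (ht : 0 ≤ t) : (gaussianReal 0 1).real (Set.Ici t) ≤ Real.exp (-(t ^ 2 / 2)) := by
  have h := measure_ge_le_exp_mul_mgf (μ := gaussianReal 0 1) (X := id) t ht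
    (by
      have := integrable_exp_mul_gaussianReal (μ := 0) (v := 1) t
      simpa using this)
  rw [mgf_id_gaussianReal] at h
  simp only at h
  rw [← Real.exp_add] at h
  have e : {ω : ℝ | t ≤ id ω} = Set.Ici t := rfl
  rw [e] at h
  refine h.trans (Real.exp_le_exp.2 ?_)
  simp; nlinarith

lemma fenchel (x t : ℝ) (hx : 0 ≤ x) : x * t + 1 - Real.exp t ≤ klFun x := by
  rw [klFun_apply]
  rcases hx.eq_or_lt with h | h
  · subst h
    simp; exact (Real.exp_pos t).le
  · have h1 : x * (t - Real.log x) + x ≤ Real.exp t := by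
      have := Real.add_one_le_exp (t - Real.log x)
      have h2 : x * (t - Real.log x + 1) ≤ x * Real.exp (t - Real.log x) :=
        mul_le_mul_of_nonneg_left this h.le
      rw [Real.exp_sub, Real.exp_log h] at h2
      have h3 : x * (Real.exp t / x) = Real.exp t := by field_simp
      linarith
    nlinarith

lemma ofReal_int_le {μ : Measure ℝ} (g : ℝ → ℝ) (hg : Integrable g μ) :
    ENNReal.ofReal (∫ x, g x ∂μ) ≤ ∫⁻ x, ENNReal.ofReal (g x) ∂μ := by
  have h1 : ∫ x, g x ∂μ ≤ ∫ x, max (g x) 0 ∂μ :=
    integral_mono hg hg.pos_part (fun x => le_max_left _ _)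
  refine (ENNReal.ofReal_le_ofReal h1).trans ?_
  rw [ofReal_integral_eq_lintegral_ofReal hg.pos_part (Filter.Eventually.of_forall fun x => le_max_right _ _)]
  refine lintegral_mono fun x => ?_
  rw [ENNReal.ofReal_max, ENNReal.ofReal_zero]
  simp

/-- lower bound for KL from an event -/
lemma kl_lower (P Q : Measure ℝ) [IsProbabilityMeasure P] [IsProbabilityMeasure Q] (s : Set ℝ)
    (hs : MeasurableSet s) (t : ℝ) :
    ENNReal.ofReal (t * P.real s - Real.exp t * Q.real s) ≤ klDiv P Q := by
  by_cases hac : P ≪ Q
  · rw [klDiv_eq_lintegral_klFun_of_ac hac]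
    set r : ℝ → ℝ := fun x => (P.rnDeriv Q x).toReal with hr
    have hri : Integrable r Q := Measure.integrable_toReal_rnDeriv
    have h1 : P.real s = ∫ x in s, r x ∂Q := (Measure.setIntegral_toReal_rnDeriv hac s).symm
    have h2 : t * P.real s - Real.exp t * Q.real s ≤ ∫ x in s, (r x * t + 1 - Real.exp t) ∂Q := by
      rw [integral_sub, integral_add, integral_mul_const, ← h1]
      · simp
        have : 0 ≤ Q.real s := measureReal_nonneg
        nlinarith
      · exact (hri.integrableOn).mul_const _
      · exact integrable_const _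
      · exact ((hri.integrableOn).mul_const _).add (integrable_const _)
      · exact integrable_const _
    refine (ENNReal.ofReal_le_ofReal h2).trans ?_
    refine (ofReal_int_le _ (((hri.integrableOn.mul_const _).add (integrable_const _)).sub (integrable_const _))).trans ?_
    refine (lintegral_mono (fun x => ENNReal.ofReal_le_ofReal (fenchel (r x) t ENNReal.toReal_nonneg))).trans ?_
    exact setLIntegral_le_lintegral _ _
  · rw [klDiv_of_not_ac hac]; exact le_top

end Pool.Agent.H0.Eclt
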