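import Pool.Agent.H0.Eclt.Up

set_option autoImplicit false
open MeasureTheory ProbabilityTheory InformationTheory
open scoped NNReal ENNReal

namespace Pool.Agent.H0.Eclt

lemma lawS_eq (μ : Measure ℝ) [IsProbabilityMeasure μ] (n : ℕ) :
    lawS μ n = (L μ n).map (fun x => x / √n) := by
  unfold lawS L
  rw [Measure.map_map (by fun_prop) (by fun_prop)]
  rfl

lemma lawS_prob (μ : Measure ℝ) [IsProbabilityMeasure μ] (n : ℕ) : IsProbabilityMeasure (lawS μ n) := by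
  rw [lawS_eq]; exact Measure.isProbabilityMeasure_map (by fun_prop)

lemma exp_bound (n : ℕ) (hn : 128 ≤ n) : Real.exp (-(n / 4 : ℝ)) ≤ 1 / (64 * n ^ 2) := by
  have hn' : (128 : ℝ) ≤ n := by exact_mod_cast hn
  have h1 := Real.pow_div_factorial_le_exp ((n:ℝ) / 4) (by positivity) 6
  have h2 : 64 * (n:ℝ) ^ 2 ≤ Real.exp ((n:ℝ) / 4) := by
    refine le_trans ?_ h1
    have : ((Nat.factorial 6 : ℕ) : ℝ) = 720 := by norm_num [Nat.factorial]
    rw [this, div_pow]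
    have h4 : (128:ℝ) ^ 4 ≤ (n:ℝ) ^ 4 := pow_le_pow_left₀ (by norm_num) hn' 4
    have h5 : (n:ℝ) ^ 6 = n ^ 4 * n ^ 2 := by ring
    rw [h5]
    have h6 : (0:ℝ) ≤ (n:ℝ) ^ 2 := by positivity
    have h7 : (128:ℝ) ^ 4 * (n:ℝ) ^ 2 ≤ n ^ 4 * n ^ 2 := mul_le_mul_of_nonneg_right h4 h6
    rw [div_div, le_div_iff₀ (by norm_num)]
    nlinarith
  rw [Real.exp_neg, inv_eq_one_div]
  exact one_div_le_one_div_of_le (by positivity) h2

theorem main (n : ℕ) (hn : 128 ≤ n) : ∃ μ : Measure ℝ, Adm 4 μ ∧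
    klDiv μ (gaussianReal 0 1) ≤ ENNReal.ofReal (1 / n ^ 2) ∧
    ENNReal.ofReal (1 / (64 * n ^ 2)) ≤ klDiv (lawS μ n) (gaussianReal 0 1) := by
  have hn' : (128 : ℝ) ≤ n := by exact_mod_cast hn
  have hn0 : (0 : ℝ) < n := by linarith
  set s : ℝ := 1 / (n:ℝ) ^ 2 with hs
  have hs0 : 0 < s := by positivity
  have hs1 : s ≤ 1 / 2 := by
    rw [hs]
    apply one_div_le_one_div_of_le (by norm_num)
    nlinarith
  set δ : ℝ := s ^ 2 with hδ
  have hδ0 : 0 < δ := by positivity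
  have hδ1 : δ ≤ 1 := by nlinarith
  obtain ⟨v, hv⟩ : ∃ v : ℝ≥0, (v:ℝ) = 1 - s := ⟨⟨1 - s, by linarith⟩, rfl⟩
  have hv0 : v ≠ 0 := by
    intro h; rw [h] at hv; simp at hv; linarith
  have hsn : s * (n:ℝ) ^ 2 = 1 := by rw [hs]; field_simp
  have hδn : δ * (n:ℝ) ^ 2 = s := by rw [hδ, sq s, mul_assoc, hsn, mul_one]
  have hδn4 : δ * (n:ℝ) ^ 4 = 1 := by
    have : (n:ℝ) ^ 4 = n ^ 2 * n ^ 2 := by ring
    rw [this, ← mul_assoc, hδn, hsn]
  have hprob := mixt_prob δ hδ0.le hδ1 v n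
  refine ⟨mixt δ v n, ⟨hprob, mixt_ac δ v hv0 n, mixt_int δ v n 4, ?_, ?_, ?_⟩, ?_, ?_⟩
  · have := mixt_integral δ hδ0.le hδ1 v n 1
    simp only [pow_one, integral_id_gaussianReal] at this
    rw [this]; ring
  · have := mixt_integral δ hδ0.le hδ1 v n 2
    rw [this, (gauss_mom _ _).1, (gauss_mom _ _).1, (gauss_mom _ _).1, hv]
    have e : (1 - δ) * (0 ^ 2 + (1 - s)) + (δ / 2 * ((n:ℝ) ^ 2 + (1 - s)) + δ / 2 * ((-(n:ℝ)) ^ 2 + (1 - s))) =
      1 - s + δ * (n:ℝ) ^ 2 := by ring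
    rw [e, hδn]; ring
  · have := mixt_integral δ hδ0.le hδ1 v n 4
    rw [this, (gauss_mom _ _).2, (gauss_mom _ _).2, (gauss_mom _ _).2, hv]
    have e : (1 - δ) * (0 ^ 4 + 6 * 0 ^ 2 * (1 - s) + 3 * (1 - s) ^ 2) +
        (δ / 2 * ((n:ℝ) ^ 4 + 6 * n ^ 2 * (1 - s) + 3 * (1 - s) ^ 2) +
          δ / 2 * ((-(n:ℝ)) ^ 4 + 6 * (-(n:ℝ)) ^ 2 * (1 - s) + 3 * (1 - s) ^ 2)) =
      3 * (1 - s) ^ 2 + δ * (n:ℝ) ^ 4 + 6 * (1 - s) * (δ * (n:ℝ) ^ 2) := by ring
    rw [e, hδn4, hδn]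
    nlinarith
  · refine (kl_conv δ hδ0.le hδ1 v hv0 n).trans ?_
    rw [kl_gauss 0 v hv0, kl_gauss n v hv0, kl_gauss (-n) v hv0]
    have hlog0 : 0 ≤ v - 1 - Real.log v := by
      have := Real.log_le_sub_one_of_pos (show (0:ℝ) < v by rw [hv]; linarith)
      linarith
    rw [← ENNReal.ofReal_mul (by linarith), ← ENNReal.ofReal_mul (by linarith), ← ENNReal.ofReal_mul (by linarith)]
    have p0 : 0 ≤ ((v:ℝ) + 0 ^ 2 - 1 - Real.log v) / 2 := by
      have : (0:ℝ) ^ 2 = 0 := by norm_num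
      rw [this]; linarith
    have p1 : 0 ≤ ((v:ℝ) + (n:ℝ) ^ 2 - 1 - Real.log v) / 2 := by
      have : (0:ℝ) ≤ (n:ℝ) ^ 2 := by positivity
      linarith
    have p2 : 0 ≤ ((v:ℝ) + (-(n:ℝ)) ^ 2 - 1 - Real.log v) / 2 := by
      have : (0:ℝ) ≤ (-(n:ℝ)) ^ 2 := by positivity
      linarith
    have hd' : 0 ≤ 1 - δ := by linarith
    rw [← ENNReal.ofReal_add (by positivity) (by positivity), ← ENNReal.ofReal_add (by positivity) (by positivity)]
    refine ENNReal.ofReal_le_ofReal ?_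
    have e : (1 - δ) * (((v:ℝ) + 0 ^ 2 - 1 - Real.log v) / 2) +
        (δ / 2 * (((v:ℝ) + (n:ℝ) ^ 2 - 1 - Real.log v) / 2) + δ / 2 * (((v:ℝ) + (-(n:ℝ)) ^ 2 - 1 - Real.log v) / 2)) =
      ((v:ℝ) - 1 - Real.log v) / 2 + δ * (n:ℝ) ^ 2 / 2 := by ring
    rw [e, hδn, hv]
    have h1 : - Real.log (1 - s) ≤ 2 * s := by
      rw [← Real.log_inv]
      refine (Real.log_le_sub_one_of_pos (by have : 0 < 1 - s := by linarith
                                             positivity)).trans ?_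
      have h2 : (1 - s)⁻¹ ≤ 1 + 2 * s := by
        rw [inv_le_iff_one_le_mul₀ (by linarith)]
        nlinarith
      linarith
    linarith
  · have hP := lawS_prob (mixt δ v n) n
    refine le_trans ?_ (kl_lower (lawS (mixt δ v n) n) (gaussianReal 0 1) (Set.Ici (√n)) measurableSet_Ici (n / 4))
    refine ENNReal.ofReal_le_ofReal ?_
    have hQ : (gaussianReal 0 1).real (Set.Ici (√n)) ≤ Real.exp (-(n / 2)) := by
      have := tail (√n) (Real.sqrt_nonneg _)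
      rwa [Real.sq_sqrt hn0.le] at this
    have hPl : 1 / (8 * (n:ℝ) ^ 3) ≤ (lawS (mixt δ v n) n).real (Set.Ici (√n)) := by
      rw [lawS_eq, map_measureReal_apply (by fun_prop) measurableSet_Ici]
      have hset : (fun x : ℝ => x / √n) ⁻¹' (Set.Ici (√n)) = Set.Ici (n:ℝ) := by
        ext x
        simp only [Set.mem_preimage, Set.mem_Ici]
        rw [le_div_iff₀ (Real.sqrt_pos.2 hn0), Real.mul_self_sqrt hn0.le]
      rw [hset]
      obtain ⟨ρ, hρ, hL⟩ := L_decomp δ hδ0.le hδ1 v n n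
      have h1 : (L (mixt δ v n) n) (Set.Ici (n:ℝ)) ≥
          ENNReal.ofReal (n * (δ / 2) * (1 - δ) ^ (n - 1)) * (gaussianReal n (n * v)) (Set.Ici (n:ℝ)) := by
        rw [hL]
        simp only [Measure.add_apply, Measure.smul_apply, smul_eq_mul]
        rw [add_comm, add_assoc]
        exact le_self_add
      have h2 := ENNReal.toReal_mono (measure_ne_top _ _) h1
      rw [ENNReal.toReal_mul, ENNReal.toReal_ofReal (by
        have : 0 ≤ (1 - δ) ^ (n - 1) := pow_nonneg (by linarith) _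
        positivity)] at h2
      have h3 := half n (n * v)
      have h4 : 1 / 2 ≤ (1 - δ) ^ (n - 1) := by
        have hb := one_add_mul_le_pow (show (-2:ℝ) ≤ -δ by linarith) (n - 1)
        have hc : ((n - 1 : ℕ) : ℝ) ≤ n := by exact_mod_cast Nat.sub_le _ _
        have hd : (n:ℝ) * δ ≤ 1 / 2 := by
          have : (n:ℝ) ≤ n ^ 2 := by nlinarith
          nlinarith
        have : ((n - 1 : ℕ) : ℝ) * δ ≤ 1 / 2 := le_trans (mul_le_mul_of_nonneg_right hc hδ0.le) hd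
        have e : (1 + -δ) = 1 - δ := by ring
        rw [e] at hb
        linarith
      have h5 : (gaussianReal n (n * v)).real (Set.Ici (n:ℝ)) = ((gaussianReal n (n * v)) (Set.Ici (n:ℝ))).toReal := rfl
      rw [← h5] at h2
      refine le_trans ?_ h2
      have h6 : n * (δ / 2) * (1 / 2) * (1 / 2) ≤ n * (δ / 2) * (1 - δ) ^ (n - 1) * (gaussianReal n (n * v)).real (Set.Ici (n:ℝ)) := by
        gcongr
      refine le_trans (le_of_eq ?_) h6
      have : δ = 1 / (n:ℝ) ^ 4 := by field_simp; linarith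
      rw [this]
      field_simp
      norm_num
    have h3 : Real.exp (n / 4) * (gaussianReal 0 1).real (Set.Ici (√n)) ≤ 1 / (64 * n ^ 2) := by
      refine le_trans (mul_le_mul_of_nonneg_left hQ (Real.exp_pos _).le) ?_
      rw [← Real.exp_add]
      refine le_trans (le_of_eq ?_) (exp_bound n hn)
      congr 1; ring
    have h4 : (n:ℝ) / 4 * (1 / (8 * (n:ℝ) ^ 3)) ≤ (n:ℝ) / 4 * (lawS (mixt δ v n) n).real (Set.Ici (√n)) :=
      mul_le_mul_of_nonneg_left hPl (by positivity)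
    have h5 : (n:ℝ) / 4 * (1 / (8 * (n:ℝ) ^ 3)) = 2 * (1 / (64 * n ^ 2)) := by
      field_simp; norm_num
    linarith

end Pool.Agent.H0.Eclt
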