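import Pool.Agent.H0.Eclt.Defs

set_option autoImplicit false
open MeasureTheory ProbabilityTheory
open scoped NNReal ENNReal

namespace Pool.Agent.H0.Eclt

lemma gauss_mom (m : ℝ) (v : ℝ≥0) :
    ∫ x, x ^ 2 ∂(gaussianReal m v) = m ^ 2 + v ∧
    ∫ x, x ^ 4 ∂(gaussianReal m v) = m ^ 4 + 6 * m ^ 2 * v + 3 * v ^ 2 := by
  have h0 : (0:ℝ) ∈ interior (integrableExpSet (fun x : ℝ => x) (gaussianReal m v)) := by
    rw [integrableExpSet_fun_id_gaussianReal]; simp
  have hm := mgf_fun_id_gaussianReal (μ := m) (v := v)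
  set f : ℝ → ℝ := fun t => Real.exp (m * t + v * t ^ 2 / 2) with hf
  have hd : ∀ t, HasDerivAt f ((m + v * t) * f t) t := by
    intro t
    have h1 : HasDerivAt (fun t : ℝ => m * t + v * t ^ 2 / 2) (m + v * t) t := by
      have := ((hasDerivAt_id t).const_mul m).add ((((hasDerivAt_id t).pow 2).const_mul (v:ℝ)).div_const 2)
      refine this.congr_deriv ?_
      simp [id]; ring
    have := h1.exp
    convert this using 1
    ring
  have hl : ∀ t, HasDerivAt (fun t : ℝ => m + v * t) (v:ℝ) t := by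
    intro t
    have := ((hasDerivAt_id t).const_mul (v:ℝ)).const_add m
    refine this.congr_deriv ?_
    simp
  have d1 : deriv f = fun t => (m + v * t) * f t := funext fun t => (hd t).deriv
  have d2 : deriv (fun t => (m + v * t) * f t) = fun t => (v + (m + v * t) ^ 2) * f t := by
    funext t
    have := ((hl t).mul (hd t)).deriv
    refine this.trans ?_
    ring
  have d3 : deriv (fun t => (v + (m + v * t) ^ 2) * f t) = fun t => (3 * v * (m + v * t) + (m + v * t) ^ 3) * f t := by
    funext t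
    have := ((((hl t).pow 2).const_add (v:ℝ)).mul (hd t)).deriv
    refine this.trans ?_
    simp; ring
  have d4 : deriv (fun t => (3 * v * (m + v * t) + (m + v * t) ^ 3) * f t) =
      fun t => (3 * v ^ 2 + 6 * v * (m + v * t) ^ 2 + (m + v * t) ^ 4) * f t := by
    funext t
    have := ((((hl t).const_mul (3 * (v:ℝ))).add ((hl t).pow 3)).mul (hd t)).deriv
    refine this.trans ?_
    simp; ring
  have f0 : f 0 = 1 := by simp [hf]
  constructor
  · have := iteratedDeriv_mgf_zero h0 2
    rw [hm] at this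
    change iteratedDeriv 2 f 0 = ∫ x, x ^ 2 ∂(gaussianReal m v) at this
    rw [← this, iteratedDeriv_succ, iteratedDeriv_one, d1, d2]
    simp [f0]; ring
  · have := iteratedDeriv_mgf_zero h0 4
    rw [hm] at this
    change iteratedDeriv 4 f 0 = ∫ x, x ^ 4 ∂(gaussianReal m v) at this
    rw [← this, iteratedDeriv_succ, iteratedDeriv_succ, iteratedDeriv_succ, iteratedDeriv_one, d1, d2, d3, d4]
    simp [f0]; ring

lemma gauss_int (m : ℝ) (v : ℝ≥0) (k : ℕ) : Integrable (fun x : ℝ => x ^ k) (gaussianReal m v) := by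
  have h := memLp_id_gaussianReal (μ := m) (v := v) (k : ℝ≥0)
  have := h.integrable_norm_pow' 
  refine (integrable_norm_iff (by fun_prop)).1 ?_
  simpa [norm_pow] using this

/-- one big jump mixture -/
noncomputable def mixt (δ : ℝ) (v : ℝ≥0) (R : ℝ) : Measure ℝ :=
  ENNReal.ofReal (1 - δ) • gaussianReal 0 v +
    (ENNReal.ofReal (δ / 2) • gaussianReal R v + ENNReal.ofReal (δ / 2) • gaussianReal (-R) v)

lemma mixt_int (δ : ℝ) (v : ℝ≥0) (R : ℝ) (k : ℕ) : Integrable (fun x : ℝ => x ^ k) (mixt δ v R) := by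
  unfold mixt
  exact ((gauss_int _ _ _).smul_measure ENNReal.ofReal_ne_top).add_measure
    (((gauss_int _ _ _).smul_measure ENNReal.ofReal_ne_top).add_measure
    ((gauss_int _ _ _).smul_measure ENNReal.ofReal_ne_top))

lemma mixt_integral (δ : ℝ) (h0 : 0 ≤ δ) (h1 : δ ≤ 1) (v : ℝ≥0) (R : ℝ) (k : ℕ) :
    ∫ x, x ^ k ∂(mixt δ v R) = (1 - δ) * (∫ x, x ^ k ∂(gaussianReal 0 v)) +
      (δ / 2 * (∫ x, x ^ k ∂(gaussianReal R v)) + δ / 2 * (∫ x, x ^ k ∂(gaussianReal (-R) v))) := by
  unfold mixt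
  have i0 := (gauss_int 0 v k).smul_measure (c := ENNReal.ofReal (1 - δ)) ENNReal.ofReal_ne_top
  have i1 := (gauss_int R v k).smul_measure (c := ENNReal.ofReal (δ / 2)) ENNReal.ofReal_ne_top
  have i2 := (gauss_int (-R) v k).smul_measure (c := ENNReal.ofReal (δ / 2)) ENNReal.ofReal_ne_top
  rw [integral_add_measure i0 (i1.add_measure i2), integral_add_measure i1 i2,
    integral_smul_measure, integral_smul_measure, integral_smul_measure,
    ENNReal.toReal_ofReal (by linarith), ENNReal.toReal_ofReal (by linarith)]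
  simp only [smul_eq_mul]

lemma mixt_prob (δ : ℝ) (h0 : 0 ≤ δ) (h1 : δ ≤ 1) (v : ℝ≥0) (R : ℝ) : IsProbabilityMeasure (mixt δ v R) := by
  constructor
  unfold mixt
  simp only [Measure.add_apply, Measure.smul_apply, measure_univ, smul_eq_mul, mul_one]
  rw [← ENNReal.ofReal_add (by linarith) (by linarith), ← ENNReal.ofReal_add (by linarith) (by linarith)]
  rw [← ENNReal.ofReal_one]
  congr 1; ring

lemma mixt_ac (δ : ℝ) (v : ℝ≥0) (hv : v ≠ 0) (R : ℝ) : mixt δ v R ≪ volume := by
  unfold mixt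
  have h (m : ℝ) := gaussianReal_absolutelyContinuous m hv
  intro s hs
  simp [h _ hs]

end Pool.Agent.H0.Eclt
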