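import Pool.Agent.H0.Eclt.Mom

set_option autoImplicit false
open MeasureTheory ProbabilityTheory
open scoped NNReal ENNReal

namespace Pool.Agent.H0.Eclt

/-- law of the unnormalized sum -/
noncomputable def L (μ : Measure ℝ) (k : ℕ) : Measure ℝ :=
  (Measure.infinitePi (fun _ : ℕ => μ)).map (fun ω => ∑ i ∈ Finset.range k, ω i)

lemma L_zero (μ : Measure ℝ) [IsProbabilityMeasure μ] : L μ 0 = gaussianReal 0 0 := by
  unfold L
  simp [gaussianReal_zero_var]

instance (μ : Measure ℝ) [IsProbabilityMeasure μ] (k : ℕ) : IsProbabilityMeasure (L μ k) := by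
  unfold L
  exact Measure.isProbabilityMeasure_map (by fun_prop)

lemma L_succ (μ : Measure ℝ) [IsProbabilityMeasure μ] (k : ℕ) : L μ (k + 1) = L μ k ∗ μ := by
  have hind : iIndepFun (fun (i : ℕ) (ω : ℕ → ℝ) => ω i) (Measure.infinitePi (fun _ : ℕ => μ)) :=
    iIndepFun_infinitePi (X := fun _ ω => ω) (fun _ => measurable_id)
  have h1 := hind.indepFun_finsetSum_of_notMem (fun i => measurable_pi_apply (X := fun _ : ℕ => ℝ) i)
    (s := Finset.range k) (i := k) (by simp)
  have h2 := h1.map_add_eq_map_conv_map₀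
    (by
      refine Measurable.aemeasurable ?_
      have e : (∑ j ∈ Finset.range k, fun ω : ℕ → ℝ => ω j) = (fun ω : ℕ → ℝ => ∑ j ∈ Finset.range k, ω j) := by
        funext ω
        simp [Finset.sum_apply]
      rw [e]
      exact Finset.measurable_sum _ (fun i _ => measurable_pi_apply (X := fun _ : ℕ => ℝ) i))
    (measurable_pi_apply (X := fun _ : ℕ => ℝ) k).aemeasurable
  have h3 : (Measure.infinitePi (fun _ : ℕ => μ)).map (fun ω => ω k) = μ :=
    (measurePreserving_eval_infinitePi (fun _ : ℕ => μ) k).map_eq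
  unfold L
  rw [h3] at h2
  have e1 : (fun ω : ℕ → ℝ => ∑ i ∈ Finset.range (k + 1), ω i) =
      (∑ j ∈ Finset.range k, fun ω : ℕ → ℝ => ω j) + (fun ω => ω k) := by
    funext ω
    simp [Finset.sum_range_succ, Finset.sum_apply]
  have e2 : (fun ω : ℕ → ℝ => ∑ i ∈ Finset.range k, ω i) = (∑ j ∈ Finset.range k, fun ω : ℕ → ℝ => ω j) := by
    funext ω
    simp [Finset.sum_apply]
  rw [e1, e2]
  exact h2

lemma ff (c m : ℝ) (w : ℝ≥0) : IsFiniteMeasure (ENNReal.ofReal c • gaussianReal m w) :=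
  Measure.smul_finite _ ENNReal.ofReal_ne_top

lemma conv_mixt (c m : ℝ) (hc : 0 ≤ c) (w : ℝ≥0) (δ : ℝ) (v : ℝ≥0) (R : ℝ) :
    (ENNReal.ofReal c • gaussianReal m w) ∗ mixt δ v R =
      ENNReal.ofReal (c * (1 - δ)) • gaussianReal m (w + v) +
      (ENNReal.ofReal (c * (δ / 2)) • gaussianReal (m + R) (w + v) +
       ENNReal.ofReal (c * (δ / 2)) • gaussianReal (m - R) (w + v)) := by
  have := ff
  unfold mixt
  rw [Measure.conv_add, Measure.conv_add, Measure.conv_smul_left, Measure.conv_smul_left,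
    Measure.conv_smul_left, Measure.conv_smul_right, Measure.conv_smul_right, Measure.conv_smul_right,
    gaussianReal_conv_gaussianReal,
    gaussianReal_conv_gaussianReal, gaussianReal_conv_gaussianReal, smul_smul, smul_smul, smul_smul,
    ← ENNReal.ofReal_mul hc, ← ENNReal.ofReal_mul hc, add_zero, sub_eq_add_neg m R]

/-- decomposition of the law of the sum -/
lemma L_decomp (δ : ℝ) (h0 : 0 ≤ δ) (h1 : δ ≤ 1) (v : ℝ≥0) (R : ℝ) (k : ℕ) :
    ∃ ρ : Measure ℝ, IsFiniteMeasure ρ ∧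
      L (mixt δ v R) k = ENNReal.ofReal ((1 - δ) ^ k) • gaussianReal 0 (k * v) +
        (ENNReal.ofReal (k * (δ / 2) * (1 - δ) ^ (k - 1)) • gaussianReal R (k * v) + ρ) := by
  have := mixt_prob δ h0 h1 v R
  induction k with
  | zero =>
    refine ⟨0, inferInstance, ?_⟩
    rw [L_zero]
    simp
  | succ k ih =>
    obtain ⟨ρ, hρ, hL⟩ := ih
    have hpow : 0 ≤ (1 - δ) ^ k := pow_nonneg (by linarith) _
    have hpow' : 0 ≤ (1 - δ) ^ (k - 1) := pow_nonneg (by linarith) _
    have := ff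
    rw [L_succ]
    refine ⟨ENNReal.ofReal ((1 - δ) ^ k * (δ / 2)) • gaussianReal (0 - R) (k * v + v) +
      ((ENNReal.ofReal (k * (δ / 2) * (1 - δ) ^ (k - 1) * (δ / 2)) • gaussianReal (R + R) (k * v + v) +
       ENNReal.ofReal (k * (δ / 2) * (1 - δ) ^ (k - 1) * (δ / 2)) • gaussianReal (R - R) (k * v + v)) +
      ρ ∗ mixt δ v R), inferInstance, ?_⟩
    rw [hL, Measure.add_conv, Measure.add_conv, conv_mixt _ _ hpow, conv_mixt _ _ (by positivity)]
    have e3 : ENNReal.ofReal (((k + 1 : ℕ) : ℝ) * (δ / 2) * (1 - δ) ^ (k + 1 - 1)) =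
        ENNReal.ofReal ((1 - δ) ^ k * (δ / 2)) + ENNReal.ofReal (k * (δ / 2) * (1 - δ) ^ (k - 1) * (1 - δ)) := by
      rw [← ENNReal.ofReal_add (by positivity) (mul_nonneg (by positivity) (by linarith))]
      congr 1
      rcases k with _ | k
      · simp
      · simp only [Nat.add_sub_cancel]
        push_cast
        ring
    rw [e3, add_smul, zero_add, show (((k + 1 : ℕ) : ℝ≥0) * v) = k * v + v by push_cast; ring, pow_succ (1 - δ) k]
    abel

end Pool.Agent.H0.Eclt
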