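import Pool.Agent.H0.Eclt.Low

set_option autoImplicit false
open MeasureTheory ProbabilityTheory InformationTheory
open scoped NNReal ENNReal

namespace Pool.Agent.H0.Eclt

noncomputable def rr (m : ℝ) (v : ℝ≥0) (x : ℝ) : ℝ := gaussianPDFReal m v x / gaussianPDFReal 0 1 x

lemma rr_meas (m : ℝ) (v : ℝ≥0) : Measurable (rr m v) := by
  unfold rr
  exact (measurable_gaussianPDFReal _ _).div (measurable_gaussianPDFReal _ _)

lemma rr_nonneg (m : ℝ) (v : ℝ≥0) (x : ℝ) : 0 ≤ rr m v x :=
  div_nonneg (gaussianPDFReal_nonneg _ _ _) (gaussianPDFReal_nonneg _ _ _)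

lemma wd (m : ℝ) (v : ℝ≥0) (hv : v ≠ 0) :
    (gaussianReal 0 1).withDensity (fun x => ENNReal.ofReal (rr m v x)) = gaussianReal m v := by
  rw [gaussianReal_of_var_ne_zero 0 (one_ne_zero), gaussianReal_of_var_ne_zero m hv,
    ← withDensity_mul _ (measurable_gaussianPDF _ _) (rr_meas m v).ennreal_ofReal]
  congr 1
  funext x
  simp only [Pi.mul_apply, gaussianPDF, rr]
  rw [← ENNReal.ofReal_mul (gaussianPDFReal_nonneg _ _ _)]
  congr 1
  have := (gaussianPDFReal_pos 0 1 x one_ne_zero).ne'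
  field_simp

lemma kl_wd (g : ℝ → ℝ) (hg : Measurable g) (h0 : ∀ x, 0 ≤ g x)
    (hf : IsFiniteMeasure ((gaussianReal 0 1).withDensity (fun x => ENNReal.ofReal (g x)))) :
    klDiv ((gaussianReal 0 1).withDensity (fun x => ENNReal.ofReal (g x))) (gaussianReal 0 1) =
      ∫⁻ x, ENNReal.ofReal (klFun (g x)) ∂(gaussianReal 0 1) := by
  rw [klDiv_eq_lintegral_klFun_of_ac (withDensity_absolutelyContinuous _ _)]
  refine lintegral_congr_ae ?_
  have := Measure.rnDeriv_withDensity (gaussianReal 0 1) hg.ennreal_ofReal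
  filter_upwards [this] with x hx
  rw [hx, ENNReal.toReal_ofReal (h0 x)]

lemma mixt_wd (δ : ℝ) (h0 : 0 ≤ δ) (h1 : δ ≤ 1) (v : ℝ≥0) (hv : v ≠ 0) (R : ℝ) :
    (gaussianReal 0 1).withDensity (fun x => ENNReal.ofReal
      ((1 - δ) * rr 0 v x + (δ / 2 * rr R v x + δ / 2 * rr (-R) v x))) = mixt δ v R := by
  unfold mixt
  rw [← wd 0 v hv, ← wd R v hv, ← wd (-R) v hv]
  rw [← withDensity_smul _ (rr_meas _ _).ennreal_ofReal, ← withDensity_smul _ (rr_meas _ _).ennreal_ofReal,
    ← withDensity_smul _ (rr_meas _ _).ennreal_ofReal]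
  rw [← withDensity_add_left ((rr_meas _ _).ennreal_ofReal.const_smul _),
    ← withDensity_add_left ((rr_meas _ _).ennreal_ofReal.const_smul _)]
  congr 1
  funext x
  simp only [Pi.add_apply, Pi.smul_apply, smul_eq_mul]
  have a0 := rr_nonneg 0 v x
  have a1 := rr_nonneg R v x
  have a2 := rr_nonneg (-R) v x
  have hd : 0 ≤ δ / 2 := by linarith
  have hd' : 0 ≤ 1 - δ := by linarith
  rw [ENNReal.ofReal_add (by positivity) (by positivity), ENNReal.ofReal_add (by positivity) (by positivity),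
    ENNReal.ofReal_mul hd', ENNReal.ofReal_mul hd, ENNReal.ofReal_mul hd]

lemma kl_conv (δ : ℝ) (h0 : 0 ≤ δ) (h1 : δ ≤ 1) (v : ℝ≥0) (hv : v ≠ 0) (R : ℝ) :
    klDiv (mixt δ v R) (gaussianReal 0 1) ≤ ENNReal.ofReal (1 - δ) * klDiv (gaussianReal 0 v) (gaussianReal 0 1) +
      (ENNReal.ofReal (δ / 2) * klDiv (gaussianReal R v) (gaussianReal 0 1) +
        ENNReal.ofReal (δ / 2) * klDiv (gaussianReal (-R) v) (gaussianReal 0 1)) := by
  have hp := mixt_prob δ h0 h1 v R
  have hd : 0 ≤ δ / 2 := by linarith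
  have hd' : 0 ≤ 1 - δ := by linarith
  have hg (m : ℝ) : klDiv (gaussianReal m v) (gaussianReal 0 1) =
      ∫⁻ x, ENNReal.ofReal (klFun (rr m v x)) ∂(gaussianReal 0 1) := by
    rw [← wd m v hv]
    exact kl_wd _ (rr_meas m v) (rr_nonneg m v) (by rw [wd m v hv]; infer_instance)
  rw [hg, hg, hg, ← mixt_wd δ h0 h1 v hv R, kl_wd]
  · have hm (m : ℝ) : Measurable fun x => ENNReal.ofReal (klFun (rr m v x)) :=
      (measurable_klFun.comp (rr_meas m v)).ennreal_ofReal
    rw [← lintegral_const_mul _ (hm _), ← lintegral_const_mul _ (hm _), ← lintegral_const_mul _ (hm _),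
      ← lintegral_add_left ((hm _).const_mul _), ← lintegral_add_left ((hm _).const_mul _)]
    refine lintegral_mono fun x => ?_
    have a0 := rr_nonneg 0 v x
    have a1 := rr_nonneg R v x
    have a2 := rr_nonneg (-R) v x
    have k0 := klFun_nonneg a0
    have k1 := klFun_nonneg a1
    have k2 := klFun_nonneg a2
    rw [← ENNReal.ofReal_mul hd', ← ENNReal.ofReal_mul hd, ← ENNReal.ofReal_mul hd,
      ← ENNReal.ofReal_add (by positivity) (by positivity), ← ENNReal.ofReal_add (by positivity) (by positivity)]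
    refine ENNReal.ofReal_le_ofReal ?_
    have hc := convexOn_klFun.2
    have c1 := hc (show rr R v x ∈ Set.Ici (0:ℝ) from a1) (show rr (-R) v x ∈ Set.Ici (0:ℝ) from a2)
      (show (0:ℝ) ≤ 1/2 by norm_num) (show (0:ℝ) ≤ 1/2 by norm_num) (by norm_num)
    have c2 := hc (show rr 0 v x ∈ Set.Ici (0:ℝ) from a0)
      (show (1/2) * rr R v x + (1/2) * rr (-R) v x ∈ Set.Ici (0:ℝ) by simp only [Set.mem_Ici]; positivity)
      hd' h0 (by ring)
    simp only [smul_eq_mul] at c1 c2
    have e : (1 - δ) * rr 0 v x + (δ / 2 * rr R v x + δ / 2 * rr (-R) v x) =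
      (1 - δ) * rr 0 v x + δ * (1 / 2 * rr R v x + 1 / 2 * rr (-R) v x) := by ring
    rw [e]
    nlinarith
  · have a0 := rr_meas 0 v
    have a1 := rr_meas R v
    have a2 := rr_meas (-R) v
    fun_prop
  · intro x
    have a0 := rr_nonneg 0 v x
    have a1 := rr_nonneg R v x
    have a2 := rr_nonneg (-R) v x
    positivity
  · rw [mixt_wd δ h0 h1 v hv R]; infer_instance

lemma kl_gauss (m : ℝ) (v : ℝ≥0) (hv : v ≠ 0) :
    klDiv (gaussianReal m v) (gaussianReal 0 1) =
      ENNReal.ofReal ((v + m ^ 2 - 1 - Real.log v) / 2) := by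
  have hac : gaussianReal m v ≪ gaussianReal 0 1 := by
    rw [← wd m v hv]; exact withDensity_absolutelyContinuous _ _
  have hv' : (0:ℝ) < v := by positivity
  have hllr : llr (gaussianReal m v) (gaussianReal 0 1) =ᵐ[gaussianReal m v]
      fun x => -(Real.log v) / 2 - (x ^ 2 - 2 * m * x + m ^ 2) / (2 * v) + x ^ 2 / 2 := by
    have h1 := Measure.rnDeriv_withDensity (gaussianReal 0 1) (rr_meas m v).ennreal_ofReal
    rw [wd m v hv] at h1
    filter_upwards [hac.ae_le h1] with x hx
    rw [llr_def]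
    simp only
    rw [hx, ENNReal.toReal_ofReal (rr_nonneg m v x), rr, Real.log_div (gaussianPDFReal_pos _ _ _ hv).ne'
      (gaussianPDFReal_pos _ _ _ one_ne_zero).ne', gaussianPDFReal, gaussianPDFReal,
      Real.log_mul (by positivity) (Real.exp_pos _).ne', Real.log_mul (by positivity) (Real.exp_pos _).ne',
      Real.log_exp, Real.log_exp, Real.log_inv, Real.log_inv, Real.log_sqrt (by positivity),
      Real.log_sqrt (by positivity), Real.log_mul (by positivity) hv'.ne']
    simp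
    field_simp
    ring
  have i1 := gauss_int m v 1
  simp only [pow_one] at i1
  have i2 := gauss_int m v 2
  have e1 : ∫ x, x ∂(gaussianReal m v) = m := integral_id_gaussianReal
  have e2 := (gauss_mom m v).1
  have hfun : (fun x : ℝ => -(Real.log v) / 2 - (x ^ 2 - 2 * m * x + m ^ 2) / (2 * v) + x ^ 2 / 2) =
      fun x : ℝ => (-(Real.log v) / 2 - m ^ 2 / (2 * v)) + ((m / v) * x + (1 / 2 - 1 / (2 * v)) * x ^ 2) := by
    funext x
    field_simp
    ring
  rw [hfun] at hllr
  have hint : Integrable (fun x : ℝ => (-(Real.log v) / 2 - m ^ 2 / (2 * v)) + ((m / v) * x + (1 / 2 - 1 / (2 * v)) * x ^ 2)) (gaussianReal m v) :=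
    Integrable.add (integrable_const _) ((i1.const_mul _).add (i2.const_mul _))
  have j1 : Integrable (fun x : ℝ => (m / v) * x) (gaussianReal m v) := i1.const_mul _
  have j2 : Integrable (fun x : ℝ => (1 / 2 - 1 / (2 * (v:ℝ))) * x ^ 2) (gaussianReal m v) := i2.const_mul _
  have j12 : Integrable (fun x : ℝ => (m / v) * x + (1 / 2 - 1 / (2 * (v:ℝ))) * x ^ 2) (gaussianReal m v) :=
    j1.add j2
  rw [klDiv_of_ac_of_integrable hac ((integrable_congr hllr).2 hint), integral_congr_ae hllr,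
    integral_add (integrable_const _) j12,
    integral_add j1 j2, integral_const_mul, integral_const_mul, e1, e2]
  congr 1
  simp
  field_simp
  ring

end Pool.Agent.H0.Eclt
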